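import Mathlib

/-! A finite graph with at least two vertices and no induced `P₄` is disconnected or has a
disconnected complement (Seinsche), stated for a symmetric relation on a finset. -/

namespace Pool.Agent.MP_d43ba4_co

variable {α : Type*} [DecidableEq α]

/-- no induced path on four vertices -/
def NoP4 (R : α → α → Prop) (E : Finset α) : Prop :=
  ∀ a ∈ E, ∀ b ∈ E, ∀ c ∈ E, ∀ d ∈ E, a ≠ b → a ≠ c → a ≠ d → b ≠ c → b ≠ d → c ≠ d →
    ¬ (R a b ∧ R b c ∧ R c d ∧ ¬ R a c ∧ ¬ R a d ∧ ¬ R b d)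

lemma NoP4.compl {R : α → α → Prop} (hs : ∀ x y, R x y → R y x) {E : Finset α} (h : NoP4 R E) :
    NoP4 (fun x y => ¬ R x y) E := by
  intro a ha b hb c hc d hd hab hac had hbc hbd hcd ⟨h1, h2, h3, h4, h5, h6⟩
  simp only [not_not] at h4 h5 h6
  exact h c hc a ha d hd b hb hac.symm hcd hbc.symm had hab hbd.symm
    ⟨hs _ _ h4, h5, hs _ _ h6, h3, fun h => h2 (hs _ _ h), h1⟩

/-- a nontrivial bipartition with no cross relations -/
def Split (R : α → α → Prop) (E : Finset α) : Prop :=
  ∃ A B : Finset α, A.Nonempty ∧ B.Nonempty ∧ Disjoint A B ∧ A ∪ B = E ∧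
    ∀ a ∈ A, ∀ b ∈ B, ¬ R a b

lemma step_aux {R : α → α → Prop} (hs : ∀ x y, R x y → R y x) {v : α} {A B : Finset α}
    (hv : v ∉ A ∪ B) (hdisj : Disjoint A B) (hno : ∀ a ∈ A, ∀ b ∈ B, ¬ R a b)
    (hP : NoP4 R (insert v (A ∪ B))) {b0 w : α} (hb0 : b0 ∈ B) (hvb : R v b0) (hw : w ∈ A)
    (hvw : ¬ R v w) : Split R (insert v (A ∪ B)) := by
  classical
  have hvA : v ∉ A := fun h => hv (Finset.mem_union_left _ h)
  have hvB : v ∉ B := fun h => hv (Finset.mem_union_right _ h)
  by_cases hx : ∃ x ∈ A, ¬ R v x ∧ ∃ y ∈ A, R v y ∧ R x y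
  · exfalso
    obtain ⟨x, hxA, hvx, y, hyA, hvy, hxy⟩ := hx
    refine hP x (by simp [hxA]) y (by simp [hyA]) v (by simp) b0 (by simp [hb0]) ?_ ?_ ?_ ?_ ?_ ?_
      ⟨hxy, hs _ _ hvy, hvb, fun h => hvx (hs _ _ h), hno x hxA b0 hb0, hno y hyA b0 hb0⟩
    · rintro rfl; exact hvx hvy
    · rintro rfl; exact hvA hxA
    · rintro rfl; exact Finset.disjoint_left.1 hdisj hxA hb0
    · rintro rfl; exact hvA hyA
    · rintro rfl; exact Finset.disjoint_left.1 hdisj hyA hb0
    · rintro rfl; exact hvB hb0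
  · push Not at hx
    refine ⟨A.filter (fun x => ¬ R v x), insert v (A.filter (fun x => R v x) ∪ B), ⟨w, by simp [hw, hvw]⟩,
      ⟨v, by simp⟩, ?_, ?_, ?_⟩
    · rw [Finset.disjoint_left]
      intro x hx1 hx2
      simp only [Finset.mem_filter, Finset.mem_insert, Finset.mem_union] at hx1 hx2
      rcases hx2 with rfl | ⟨_, h⟩ | h
      · exact hvA hx1.1
      · exact hx1.2 h
      · exact Finset.disjoint_left.1 hdisj hx1.1 h
    · ext x
      simp only [Finset.mem_filter, Finset.mem_insert, Finset.mem_union]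
      by_cases h : R v x <;> simp [h] <;> tauto
    · intro x hx1 y hy
      simp only [Finset.mem_filter, Finset.mem_insert, Finset.mem_union] at hx1 hy
      rcases hy with rfl | ⟨h1, h2⟩ | h
      · exact fun h => hx1.2 (hs _ _ h)
      · exact hx x hx1.1 hx1.2 y h1 h2
      · exact hno x hx1.1 y h

lemma step {R : α → α → Prop} (hs : ∀ x y, R x y → R y x) {v : α} {E : Finset α} (hv : v ∉ E)
    (hP : NoP4 R (insert v E)) (h : Split R E) :
    Split R (insert v E) ∨ Split (fun x y => ¬ R x y) (insert v E) := by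
  classical
  obtain ⟨A, B, hA, hB, hdisj, rfl, hno⟩ := h
  have hvA : v ∉ A := fun h => hv (Finset.mem_union_left _ h)
  have hvB : v ∉ B := fun h => hv (Finset.mem_union_right _ h)
  by_cases h1 : ∀ a ∈ A, ¬ R v a
  · left
    refine ⟨A, insert v B, hA, ⟨v, by simp⟩, ?_, ?_, ?_⟩
    · rw [Finset.disjoint_insert_right]; exact ⟨hvA, hdisj⟩
    · ext x; simp only [Finset.mem_union, Finset.mem_insert]; tauto
    · intro a ha b hb
      rcases Finset.mem_insert.1 hb with rfl | hb
      · exact fun h => h1 a ha (hs _ _ h)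
      · exact hno a ha b hb
  by_cases h2 : ∀ b ∈ B, ¬ R v b
  · left
    refine ⟨insert v A, B, ⟨v, by simp⟩, hB, ?_, ?_, ?_⟩
    · rw [Finset.disjoint_insert_left]; exact ⟨hvB, hdisj⟩
    · ext x; simp only [Finset.mem_union, Finset.mem_insert]; tauto
    · intro a ha b hb
      rcases Finset.mem_insert.1 ha with rfl | ha
      · exact h2 b hb
      · exact hno a ha b hb
  by_cases h3 : ∀ x ∈ A ∪ B, R v x
  · right
    refine ⟨{v}, A ∪ B, ⟨v, by simp⟩, ?_, ?_, ?_, ?_⟩
    · exact hA.mono Finset.subset_union_left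
    · rw [Finset.disjoint_singleton_left]; exact hv
    · rfl
    · intro a ha b hb
      rw [Finset.mem_singleton] at ha
      subst ha
      exact not_not.2 (h3 b hb)
  push Not at h1 h2 h3
  obtain ⟨a0, ha0, hva⟩ := h1
  obtain ⟨b0, hb0, hvb⟩ := h2
  obtain ⟨w, hw, hvw⟩ := h3
  left
  rcases Finset.mem_union.1 hw with hw | hw
  · exact step_aux hs hv hdisj hno hP hb0 hvb hw hvw
  · rw [Finset.union_comm] at hv hP ⊢
    exact step_aux hs hv hdisj.symm (fun a ha b hb h => hno b hb a ha (hs _ _ h)) hP ha0 hva hw hvw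

/-- the dichotomy -/
theorem dichotomy {R : α → α → Prop} (hs : ∀ x y, R x y → R y x) (E : Finset α)
    (hE : 2 ≤ E.card) (hP : NoP4 R E) : Split R E ∨ Split (fun x y => ¬ R x y) E := by
  classical
  induction E using Finset.induction_on with
  | empty => simp at hE
  | insert v E hv ih =>
    rw [Finset.card_insert_of_notMem hv] at hE
    have hP' : NoP4 R E := fun a ha b hb c hc d hd =>
      hP a (Finset.mem_insert_of_mem ha) b (Finset.mem_insert_of_mem hb) c
        (Finset.mem_insert_of_mem hc) d (Finset.mem_insert_of_mem hd)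
    by_cases h1 : E.card = 1
    · obtain ⟨w, rfl⟩ := Finset.card_eq_one.1 h1
      have hvw : v ≠ w := by simpa using hv
      by_cases h : R v w
      · right
        refine ⟨{v}, {w}, by simp, by simp, by simpa using hvw, rfl, ?_⟩
        intro a ha b hb
        rw [Finset.mem_singleton] at ha hb
        subst ha; subst hb
        exact not_not.2 h
      · left
        refine ⟨{v}, {w}, by simp, by simp, by simpa using hvw, rfl, ?_⟩
        intro a ha b hb
        rw [Finset.mem_singleton] at ha hb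
        subst ha; subst hb
        exact h
    · rcases ih (by omega) hP' with h | h
      · exact step hs hv hP h
      · have hs' : ∀ x y, ¬ R x y → ¬ R y x := fun x y h h' => h (hs _ _ h')
        rcases step hs' hv (hP.compl hs) h with h | h
        · right; exact h
        · left
          obtain ⟨A, B, h1, h2, h3, h4, h5⟩ := h
          exact ⟨A, B, h1, h2, h3, h4, fun a ha b hb => not_not.1 (h5 a ha b hb)⟩

end Pool.Agent.MP_d43ba4_co
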