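import Pool.Agent.MP_d43ba4_co.Main

namespace Pool.Agent.MP_d43ba4_co

variable {V : Type*} [DecidableEq V]

lemma Hyp.free' {r : ℕ} {E : Finset (Finset V)} (h : Hyp r E) {a b c d : Finset V}
    (ha : a ∈ E) (hb : b ∈ E) (hc : c ∈ E) (hd : d ∈ E) (hab : ¬ Disjoint a b)
    (hbc : ¬ Disjoint b c) (hcd : ¬ Disjoint c d) (hac : Disjoint a c) (had : Disjoint a d)
    (hbd : Disjoint b d) : False := by
  refine h.free a ha b hb c hc d hd ?_ ?_ ?_ ?_ ?_ ?_
    ⟨hab, hbc, hcd, not_not.2 hac, not_not.2 had, not_not.2 hbd⟩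
  · rintro rfl; exact hbc hac
  · rintro rfl
    rw [disjoint_self] at hac
    subst hac
    exact hab (Finset.disjoint_empty_left _)
  · rintro rfl
    rw [disjoint_self] at had
    subst had
    exact hab (Finset.disjoint_empty_left _)
  · rintro rfl; exact hcd hbd
  · rintro rfl
    rw [disjoint_self] at hbd
    subst hbd
    exact hab (Finset.disjoint_empty_right _)
  · rintro rfl; exact hbc hbd

/-- the edges through `v` met by `e` -/
def tr (E : Finset (Finset V)) (v : V) (e : Finset V) : Finset (Finset V) :=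
  E.filter (fun A => v ∈ A ∧ ¬ Disjoint e A)

lemma mem_tr {E : Finset (Finset V)} {v : V} {e A : Finset V} :
    A ∈ tr E v e ↔ A ∈ E ∧ v ∈ A ∧ ¬ Disjoint e A := by simp [tr]

lemma card_tr_le {r : ℕ} {E : Finset (Finset V)} (h : Hyp r E) {v : V} {e : Finset V}
    (he : e ∈ E) (hv : v ∉ e) : (tr E v e).card ≤ r := by
  rw [← h.unif e he]
  refine (Finset.card_le_card_biUnion (s := tr E v e) (f := fun A => e ∩ A) ?_ ?_).trans
    (Finset.card_le_card ?_)
  · intro A hA B hB hAB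
    have hA' := mem_tr.1 hA
    have hB' := mem_tr.1 hB
    change Disjoint (e ∩ A) (e ∩ B)
    rw [Finset.disjoint_left]
    intro x hx1 hx2
    rw [Finset.mem_inter] at hx1 hx2
    have hxv : x ≠ v := by rintro rfl; exact hv hx1.1
    exact hAB (h.eq_of_mem hA'.1 hB'.1 hxv hx1.2 hA'.2.1 hx2.2 hB'.2.1)
  · intro A hA
    have hA' := mem_tr.1 hA
    exact Finset.not_disjoint_iff_nonempty_inter.1 hA'.2.2
  · intro x hx
    obtain ⟨A, _, hxA⟩ := Finset.mem_biUnion.1 hx
    exact (Finset.mem_inter.1 hxA).1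

lemma chain {r : ℕ} {E : Finset (Finset V)} (h : Hyp r E) {v : V} (hd : 2 * r + 1 ≤ deg E v)
    {e f : Finset V} (he : e ∈ E) (hf : f ∈ E) (hve : v ∉ e) (hvf : v ∉ f) :
    tr E v e ⊆ tr E v f ∨ tr E v f ⊆ tr E v e := by
  by_contra hcon
  push Not at hcon
  obtain ⟨h1, h2⟩ := hcon
  obtain ⟨A, hA1, hA2⟩ := Finset.not_subset.1 h1
  obtain ⟨B, hB1, hB2⟩ := Finset.not_subset.1 h2
  rw [mem_tr] at hA1 hB1
  have hA3 : Disjoint f A := by
    by_contra h3; exact hA2 (mem_tr.2 ⟨hA1.1, hA1.2.1, h3⟩)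
  have hB3 : Disjoint e B := by
    by_contra h3; exact hB2 (mem_tr.2 ⟨hB1.1, hB1.2.1, h3⟩)
  have hAB : ¬ Disjoint A B := by
    rw [Finset.not_disjoint_iff]; exact ⟨v, hA1.2.1, hB1.2.1⟩
  by_cases hef : Disjoint e f
  · exact h.free' he hA1.1 hB1.1 hf hA1.2.2 hAB (fun h => hB1.2.2 h.symm) hB3 hef hA3.symm
  · have hc : ((tr E v e) ∪ (tr E v f)).card < (E.filter (fun A => v ∈ A)).card := by
      have h3 := Finset.card_union_le (tr E v e) (tr E v f)
      have h4 := card_tr_le h he hve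
      have h5 := card_tr_le h hf hvf
      unfold deg at hd
      omega
    obtain ⟨C, hC1, hC2⟩ := Finset.exists_mem_notMem_of_card_lt_card hc
    rw [Finset.mem_filter] at hC1
    rw [Finset.mem_union, not_or] at hC2
    have hCe : Disjoint e C := by
      by_contra h3; exact hC2.1 (mem_tr.2 ⟨hC1.1, hC1.2, h3⟩)
    have hCf : Disjoint f C := by
      by_contra h3; exact hC2.2 (mem_tr.2 ⟨hC1.1, hC1.2, h3⟩)
    have hCA : ¬ Disjoint C A := by
      rw [Finset.not_disjoint_iff]; exact ⟨v, hC1.2, hA1.2.1⟩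
    exact h.free' hC1.1 hA1.1 he hf hCA (fun h => hA1.2.2 h.symm) hef hCe.symm hCf.symm hA3.symm

lemma chain_min {r : ℕ} {E : Finset (Finset V)} (h : Hyp r E) {v : V} (hd : 2 * r + 1 ≤ deg E v)
    {F : Finset (Finset V)} (hF : F ⊆ E) (hv : ∀ e ∈ F, v ∉ e) (hne : F.Nonempty) :
    ∃ e ∈ F, ∀ f ∈ F, tr E v e ⊆ tr E v f := by
  obtain ⟨e, he, hmin⟩ := Finset.exists_min_image F (fun e => (tr E v e).card) hne
  refine ⟨e, he, fun f hf => ?_⟩
  rcases chain h hd (hF he) (hF hf) (hv e he) (hv f hf) with h1 | h1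
  · exact h1
  · rw [Finset.eq_of_subset_of_card_le h1 (hmin f hf)]

lemma deletion {r : ℕ} (hr : 1 ≤ r) {E : Finset (Finset V)} (h : Hyp r E) {v : V}
    (hd : 2 * r + 1 ≤ deg E v) :
    ∃ E' ⊂ E, E.card ≤ E'.card + (deg E v - 1) + (r - 1) * (r - 1) ∧
      (U E').card + (deg E v - 1) * (r - 1) ≤ (U E).card := by
  classical
  have hStne : (E.filter (fun A => v ∈ A)).Nonempty := by
    rw [← Finset.card_pos]
    unfold deg at hd
    omega
  -- the common edge
  obtain ⟨A₀, hA₀, hA₀'⟩ : ∃ A₀ ∈ E.filter (fun A => v ∈ A),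
      ∀ f ∈ E, v ∉ f → (tr E v f).Nonempty → A₀ ∈ tr E v f := by
    by_cases hne : (E.filter (fun f => v ∉ f ∧ (tr E v f).Nonempty)).Nonempty
    · obtain ⟨e, he, hmin⟩ := chain_min h hd (Finset.filter_subset _ _)
        (fun e he => (Finset.mem_filter.1 he).2.1) hne
      obtain ⟨A₀, hA₀⟩ := (Finset.mem_filter.1 he).2.2
      refine ⟨A₀, ?_, ?_⟩
      · rw [mem_tr] at hA₀
        exact Finset.mem_filter.2 ⟨hA₀.1, hA₀.2.1⟩
      · intro f hf hvf hfn
        exact hmin f (Finset.mem_filter.2 ⟨hf, hvf, hfn⟩) hA₀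
    · obtain ⟨A₀, hA₀⟩ := hStne
      refine ⟨A₀, hA₀, fun f hf hvf hfn => ?_⟩
      exact absurd ⟨f, Finset.mem_filter.2 ⟨hf, hvf, hfn⟩⟩ hne
  rw [Finset.mem_filter] at hA₀
  set St := E.filter (fun A => v ∈ A) with hSt
  set H := E.filter (fun e => v ∉ e ∧ ∃ A ∈ tr E v e, A ≠ A₀) with hH
  -- few edges meet a second star edge
  have hHcard : H.card ≤ (r - 1) * (r - 1) := by
    by_cases hne : H.Nonempty
    · obtain ⟨e, he, hmin⟩ := chain_min h hd (Finset.filter_subset _ _)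
        (fun e he => (Finset.mem_filter.1 he).2.1) hne
      obtain ⟨A₁, hA₁, hne1⟩ := (Finset.mem_filter.1 he).2.2
      have hA₁' := mem_tr.1 hA₁
      have hall : ∀ f ∈ H, f ∈ E ∧ v ∉ f ∧ ¬ Disjoint f A₀ ∧ ¬ Disjoint f A₁ := by
        intro f hf
        have hf1 := hmin f hf hA₁
        have hf' := Finset.mem_filter.1 hf
        have hf0 := hA₀' f hf'.1 hf'.2.1 ⟨A₁, hf1⟩
        exact ⟨hf'.1, hf'.2.1, (mem_tr.1 hf0).2.2, (mem_tr.1 hf1).2.2⟩
      have e0 : (A₀.erase v).card = r - 1 := by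
        rw [Finset.card_erase_of_mem hA₀.2, h.unif A₀ hA₀.1]
      have e1 : (A₁.erase v).card = r - 1 := by
        rw [Finset.card_erase_of_mem hA₁'.2.1, h.unif A₁ hA₁'.1]
      have e2 : ((A₀.erase v) ×ˢ (A₁.erase v)).card = (r - 1) * (r - 1) := by
        rw [Finset.card_product, e0, e1]
      rw [← e2]
      refine (Finset.card_le_card_biUnion (s := H) (f := fun f => (f ∩ A₀) ×ˢ (f ∩ A₁)) ?_ ?_).trans
        (Finset.card_le_card ?_)
      · intro f hf g hg hfg
        change Disjoint ((f ∩ A₀) ×ˢ (f ∩ A₁)) ((g ∩ A₀) ×ˢ (g ∩ A₁))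
        rw [Finset.disjoint_left]
        rintro ⟨p, q⟩ h1 h2
        simp only [Finset.mem_product, Finset.mem_inter] at h1 h2
        have hf' := hall f hf
        have hg' := hall g hg
        have hpv : p ≠ v := by rintro rfl; exact hf'.2.1 h1.1.1
        have hpq : p ≠ q := by
          rintro rfl
          exact hne1 (h.eq_of_mem hA₁'.1 hA₀.1 hpv h1.2.2 hA₁'.2.1 h1.1.2 hA₀.2)
        exact hfg (h.eq_of_mem hf'.1 hg'.1 hpq h1.1.1 h1.2.1 h2.1.1 h2.2.1)
      · intro f hf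
        have hf' := hall f hf
        exact Finset.Nonempty.product (Finset.not_disjoint_iff_nonempty_inter.1 hf'.2.2.1)
          (Finset.not_disjoint_iff_nonempty_inter.1 hf'.2.2.2)
      · rintro ⟨p, q⟩ hpq0
        obtain ⟨f, hf, hpq⟩ := Finset.mem_biUnion.1 hpq0
        simp only [Finset.mem_product, Finset.mem_inter, Finset.mem_erase] at hpq ⊢
        have hf' := hall f hf
        refine ⟨⟨?_, hpq.1.2⟩, ⟨?_, hpq.2.2⟩⟩
        · rintro rfl; exact hf'.2.1 hpq.1.1
        · rintro rfl; exact hf'.2.1 hpq.2.1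
    · rw [Finset.not_nonempty_iff_eq_empty] at hne
      rw [hne]; simp
  have hdeg : St.card = deg E v := rfl
  have hSt0 : A₀ ∈ St := Finset.mem_filter.2 hA₀
  have hcard1 : (St.erase A₀).card = deg E v - 1 := by
    rw [Finset.card_erase_of_mem hSt0, hdeg]
  refine ⟨E \ (St.erase A₀ ∪ H), ?_, ?_, ?_⟩
  · rw [Finset.ssubset_iff_subset_ne]
    refine ⟨Finset.sdiff_subset, ?_⟩
    intro heq
    have hpos : 0 < (St.erase A₀).card := by rw [hcard1]; omega
    obtain ⟨B, hB⟩ := Finset.card_pos.1 hpos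
    have hBE : B ∈ E := (Finset.mem_filter.1 (Finset.mem_of_mem_erase hB)).1
    rw [← heq, Finset.mem_sdiff] at hBE
    exact hBE.2 (Finset.mem_union_left _ hB)
  · have h1 : (St.erase A₀ ∪ H) ⊆ E := by
      apply Finset.union_subset
      · exact (Finset.erase_subset _ _).trans (Finset.filter_subset _ _)
      · exact Finset.filter_subset _ _
    have h2 := Finset.card_sdiff_add_card_eq_card h1
    have h3 := Finset.card_union_le (St.erase A₀) H
    omega
  · have hW := card_star h (v := v) (F := St.erase A₀)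
      ((Finset.erase_subset _ _).trans (Finset.filter_subset _ _))
      (fun e he => (Finset.mem_filter.1 (Finset.mem_of_mem_erase he)).2)
    rw [hcard1] at hW
    rw [← hW, ← Finset.card_union_of_disjoint]
    · apply Finset.card_le_card
      intro x hx
      rcases Finset.mem_union.1 hx with hx | hx
      · obtain ⟨e, he, hxe⟩ := mem_U.1 hx
        exact mem_U.2 ⟨e, (Finset.mem_sdiff.1 he).1, hxe⟩
      · obtain ⟨e, he, hxe⟩ := Finset.mem_biUnion.1 hx
        exact mem_U.2 ⟨e, (Finset.mem_filter.1 (Finset.mem_of_mem_erase he)).1,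
          Finset.mem_of_mem_erase hxe⟩
    · rw [Finset.disjoint_left]
      intro x hx1 hx2
      obtain ⟨e, he, hxe⟩ := mem_U.1 hx1
      obtain ⟨A, hA, hxA⟩ := Finset.mem_biUnion.1 hx2
      rw [Finset.mem_sdiff, Finset.mem_union, not_or] at he
      have hA1 := Finset.mem_erase.1 hA
      have hA2 := Finset.mem_filter.1 hA1.2
      rw [Finset.mem_erase] at hxA
      by_cases hve : v ∈ e
      · have heA : e = A := h.eq_of_mem he.1 hA2.1 hxA.1 hxe hve hxA.2 hA2.2
        subst heA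
        exact he.2.1 hA
      · apply he.2.2
        refine Finset.mem_filter.2 ⟨he.1, hve, A, ?_, hA1.1⟩
        exact mem_tr.2 ⟨hA2.1, hA2.2, Finset.not_disjoint_iff.2 ⟨x, hxe, hxA.2⟩⟩

end Pool.Agent.MP_d43ba4_co
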