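import Pool.Agent.MP_d43ba4_co.Deletion

namespace Pool.Agent.MP_d43ba4_co

variable {V : Type*} [DecidableEq V]

/-- `P` is a family of disjoint blocks carrying Steiner systems whose edges make up `E` -/
structure Struct (r : ℕ) (E P : Finset (Finset V)) : Prop where
  card : ∀ B ∈ P, B.card = r ^ 2
  disj : ∀ B ∈ P, ∀ C ∈ P, B ≠ C → Disjoint B C
  cover : U P = U E
  edge : ∀ e ∈ E, ∃ B ∈ P, e ⊆ B
  pair : ∀ B ∈ P, ∀ x ∈ B, ∀ y ∈ B, x ≠ y → ∃ e ∈ E, e ⊆ B ∧ x ∈ e ∧ y ∈ e

lemma U_union (A B : Finset (Finset V)) : U (A ∪ B) = U A ∪ U B := by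
  ext x
  simp only [mem_U, Finset.mem_union]
  constructor
  · rintro ⟨e, he | he, hx⟩
    · exact Or.inl ⟨e, he, hx⟩
    · exact Or.inr ⟨e, he, hx⟩
  · rintro (⟨e, he, hx⟩ | ⟨e, he, hx⟩)
    · exact ⟨e, Or.inl he, hx⟩
    · exact ⟨e, Or.inr he, hx⟩

lemma Struct.union {r : ℕ} {A B P Q : Finset (Finset V)} (hA : Struct r A P) (hB : Struct r B Q)
    (hd : Disjoint (U A) (U B)) : Struct r (A ∪ B) (P ∪ Q) := by
  have hPQ : ∀ S ∈ P, ∀ T ∈ Q, Disjoint S T := by
    intro S hS T hT
    rw [← hA.cover, ← hB.cover] at hd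
    exact Finset.disjoint_of_subset_left (subset_U hS) (Finset.disjoint_of_subset_right (subset_U hT) hd)
  refine ⟨?_, ?_, ?_, ?_, ?_⟩
  · intro S hS
    rcases Finset.mem_union.1 hS with hS | hS
    · exact hA.card S hS
    · exact hB.card S hS
  · intro S hS T hT hne
    rcases Finset.mem_union.1 hS with hS | hS <;> rcases Finset.mem_union.1 hT with hT | hT
    · exact hA.disj S hS T hT hne
    · exact hPQ S hS T hT
    · exact (hPQ T hT S hS).symm
    · exact hB.disj S hS T hT hne
  · rw [U_union, U_union, hA.cover, hB.cover]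
  · intro e he
    rcases Finset.mem_union.1 he with he | he
    · obtain ⟨S, hS, h⟩ := hA.edge e he
      exact ⟨S, Finset.mem_union_left _ hS, h⟩
    · obtain ⟨S, hS, h⟩ := hB.edge e he
      exact ⟨S, Finset.mem_union_right _ hS, h⟩
  · intro S hS x hx y hy hxy
    rcases Finset.mem_union.1 hS with hS | hS
    · obtain ⟨e, he, h⟩ := hA.pair S hS x hx y hy hxy
      exact ⟨e, Finset.mem_union_left _ he, h⟩
    · obtain ⟨e, he, h⟩ := hB.pair S hS x hx y hy hxy
      exact ⟨e, Finset.mem_union_right _ he, h⟩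

lemma sum_deg_U {r : ℕ} {E : Finset (Finset V)} (h : Hyp r E) :
    ∑ x ∈ U E, deg E x = r * E.card := by
  rw [sum_deg E (U E) (fun e he => subset_U he), Finset.sum_const_nat (m := r) fun e he => h.unif e he,
    mul_comm]

/-- a regular join of degree `r + 1` is a Steiner system -/
lemma struct_of_regular {r : ℕ} (hr : 2 ≤ r) {E : Finset (Finset V)} (h : Hyp r E)
    (hne : (U E).Nonempty) (hle : E.card ≤ r * (r + 1)) (hreg : ∀ x ∈ U E, deg E x = r + 1) :
    Struct r E {U E} := by
  have hsum : (U E).card * (r + 1) = r * E.card := by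
    rw [← sum_deg_U h, Finset.sum_const_nat (m := r + 1) hreg]
  obtain ⟨m, rfl⟩ : ∃ m, r = m + 1 := ⟨r - 1, by omega⟩
  have hcard : (U E).card = (m + 1) ^ 2 := by
    apply le_antisymm
    · have h1 : (U E).card * (m + 1 + 1) ≤ (m + 1) ^ 2 * (m + 1 + 1) := by
        rw [hsum]
        calc (m + 1) * E.card ≤ (m + 1) * ((m + 1) * (m + 1 + 1)) := Nat.mul_le_mul_left _ hle
          _ = (m + 1) ^ 2 * (m + 1 + 1) := by ring
      exact Nat.le_of_mul_le_mul_right h1 (by omega)
    · obtain ⟨v, hv⟩ := hne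
      have h1 := star_le h hv
      rw [hreg v hv] at h1
      calc (m + 1) ^ 2 = 1 + (m + 1 + 1) * (m + 1 - 1) := by
            rw [Nat.add_sub_cancel]; ring
        _ ≤ _ := h1
  refine ⟨?_, ?_, ?_, ?_, ?_⟩
  · intro B hB
    rw [Finset.mem_singleton.1 hB]
    exact hcard
  · intro B hB C hC hne
    exact absurd ((Finset.mem_singleton.1 hB).trans (Finset.mem_singleton.1 hC).symm) hne
  · simp [U]
  · intro e he
    exact ⟨U E, Finset.mem_singleton_self _, subset_U he⟩
  · intro B hB x hx y hy hxy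
    rw [Finset.mem_singleton.1 hB] at hx hy ⊢
    -- the star at `x` covers everything
    have h1 := card_star h (v := x) (Finset.filter_subset (fun e => x ∈ e) E)
      (fun e he => (Finset.mem_filter.1 he).2)
    have h2 : (E.filter (fun e => x ∈ e)).card = m + 1 + 1 := hreg x hx
    rw [h2, Nat.add_sub_cancel] at h1
    have h3 : (E.filter (fun e => x ∈ e)).biUnion (fun e => e.erase x) ⊆ (U E).erase x := by
      intro z hz
      obtain ⟨e, he, hze⟩ := Finset.mem_biUnion.1 hz
      rw [Finset.mem_erase] at hze ⊢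
      exact ⟨hze.1, subset_U (Finset.mem_filter.1 he).1 hze.2⟩
    have h4 : ((U E).erase x).card = (m + 1 + 1) * m := by
      rw [Finset.card_erase_of_mem hx, hcard]
      have : (m + 1) ^ 2 = (m + 1 + 1) * m + 1 := by ring
      omega
    have h5 := Finset.eq_of_subset_of_card_le h3 (by rw [h4, h1])
    have h6 : y ∈ (U E).erase x := Finset.mem_erase.2 ⟨hxy.symm, hy⟩
    rw [← h5] at h6
    obtain ⟨e, he, hye⟩ := Finset.mem_biUnion.1 h6
    rw [Finset.mem_filter] at he
    exact ⟨e, he.1, subset_U he.1, he.2, (Finset.mem_erase.1 hye).2⟩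

theorem induct {r : ℕ} (hr : 2 ≤ r) (E : Finset (Finset V)) (h : Hyp r E) :
    r * E.card ≤ (r + 1) * (U E).card ∧
      (r * E.card = (r + 1) * (U E).card → ∃ P, Struct r E P) := by
  classical
  induction E using Finset.strongInduction with
  | H E ih =>
  have hs : ∀ x y : Finset V, ¬ Disjoint x y → ¬ Disjoint y x := fun x y h h' => h h'.symm
  by_cases hE0 : E = ∅
  · subst hE0
    refine ⟨by simp, fun _ => ⟨∅, ?_⟩⟩
    exact ⟨by simp, by simp, rfl, by simp, by simp⟩
  by_cases hE1 : E.card = 1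
  · obtain ⟨e, rfl⟩ := Finset.card_eq_one.1 hE1
    have hUe : (U ({e} : Finset (Finset V))).card = r := by
      simp only [U, Finset.singleton_biUnion, id]
      exact h.unif e (by simp)
    rw [hUe, Finset.card_singleton]
    constructor
    · nlinarith
    · intro heq
      exfalso
      nlinarith
  have hE2 : 2 ≤ E.card := by
    have : 0 < E.card := Finset.card_pos.2 (Finset.nonempty_iff_ne_empty.2 hE0)
    omega
  rcases dichotomy hs E hE2 h.free with hsp | hsp
  · -- disjoint supports
    obtain ⟨A, B, hA, hB, hdisj, rfl, hno⟩ := hsp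
    have hUd : Disjoint (U A) (U B) := by
      rw [Finset.disjoint_left]
      intro x hx1 hx2
      obtain ⟨e, he, hxe⟩ := mem_U.1 hx1
      obtain ⟨f, hf, hxf⟩ := mem_U.1 hx2
      exact hno e he f hf (Finset.not_disjoint_iff.2 ⟨x, hxe, hxf⟩)
    have hAs : A ⊂ A ∪ B := by
      rw [Finset.ssubset_iff_subset_ne]
      refine ⟨Finset.subset_union_left, fun heq => ?_⟩
      obtain ⟨b, hb⟩ := hB
      have : b ∈ A := by rw [heq]; exact Finset.mem_union_right _ hb
      exact Finset.disjoint_left.1 hdisj this hb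
    have hBs : B ⊂ A ∪ B := by
      rw [Finset.ssubset_iff_subset_ne]
      refine ⟨Finset.subset_union_right, fun heq => ?_⟩
      obtain ⟨a, ha⟩ := hA
      have : a ∈ B := by rw [heq]; exact Finset.mem_union_left _ ha
      exact Finset.disjoint_left.1 hdisj ha this
    obtain ⟨iA1, iA2⟩ := ih A hAs (h.mono hAs.1)
    obtain ⟨iB1, iB2⟩ := ih B hBs (h.mono hBs.1)
    have hcU : (U (A ∪ B)).card = (U A).card + (U B).card := by
      rw [U_union, Finset.card_union_of_disjoint hUd]
    have hcE : (A ∪ B).card = A.card + B.card := Finset.card_union_of_disjoint hdisj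
    rw [hcU, hcE]
    constructor
    · linarith [Nat.mul_add r A.card B.card, Nat.mul_add (r + 1) (U A).card (U B).card]
    · intro heq
      rw [Nat.mul_add, Nat.mul_add] at heq
      obtain ⟨P, hP⟩ := iA2 (by omega)
      obtain ⟨Q, hQ⟩ := iB2 (by omega)
      exact ⟨P ∪ Q, hP.union hQ hUd⟩
  · -- join
    obtain ⟨A, B, hA, hB, hdisj, rfl, hno⟩ := hsp
    have hcross : ∀ a ∈ A, ∀ b ∈ B, ¬ Disjoint a b := fun a ha b hb => not_not.1 (hno a ha b hb)
    set E := A ∪ B with hEdef
    have hne : (U E).Nonempty := by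
      obtain ⟨a, ha⟩ := hA
      have haE : a ∈ E := Finset.mem_union_left _ ha
      have h1 : 0 < a.card := by rw [h.unif a haE]; omega
      obtain ⟨x, hx⟩ := Finset.card_pos.1 h1
      exact ⟨x, subset_U haE hx⟩
    have hdeg0 : ∀ x, x ∉ U E → deg E x = 0 := by
      intro x hx
      rw [deg, Finset.card_eq_zero, Finset.filter_eq_empty_iff]
      intro e he hxe
      exact hx (mem_U.2 ⟨e, he, hxe⟩)
    obtain ⟨v, hv, hmax⟩ := Finset.exists_max_image (U E) (fun x => deg E x) hne
    have hmax' : ∀ x, deg E x ≤ deg E v := by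
      intro x
      by_cases hx : x ∈ U E
      · exact hmax x hx
      · rw [hdeg0 x hx]; exact Nat.zero_le _
    by_cases hc1 : deg E v ≤ r + 1
    · have hle : ∀ x ∈ U E, deg E x ≤ r + 1 := fun x hx => (hmax x hx).trans hc1
      constructor
      · rw [← sum_deg_U h]
        calc ∑ x ∈ U E, deg E x ≤ ∑ x ∈ U E, (r + 1) := Finset.sum_le_sum hle
          _ = (r + 1) * (U E).card := by rw [Finset.sum_const, smul_eq_mul, mul_comm]
      · intro heq
        have h1 : ∑ x ∈ U E, deg E x = ∑ x ∈ U E, (r + 1) := by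
          rw [sum_deg_U h, heq, Finset.sum_const, smul_eq_mul, mul_comm]
        have hreg := (Finset.sum_eq_sum_iff_of_le hle).1 h1
        have hj := (join_ineq hdisj h hA hB hcross (D := r + 1)
          (fun x => (hmax' x).trans hc1)).1
        exact ⟨{U E}, struct_of_regular hr h hne hj hreg⟩
    by_cases hc2 : deg E v ≤ 2 * r
    · -- strict
      have hj := join_ineq hdisj h hA hB hcross (D := deg E v) hmax'
      have hst := star_le h hv
      obtain ⟨m, rfl⟩ : ∃ m, r = m + 1 := ⟨r - 1, by omega⟩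
      rw [Nat.add_sub_cancel] at hst
      have hlt : E.card < (m + 1) * deg E v := by
        refine lt_of_le_of_ne hj.1 fun heq => ?_
        have hreg := hj.2 heq
        have h1 : (U E).card * deg E v = (m + 1) * E.card := by
          rw [← sum_deg_U h, Finset.sum_const_nat (m := deg E v) hreg]
        rw [hEdef] at h1 heq
        rw [heq] at h1
        have hpos : 0 < deg E v := deg_pos hv
        have h2 : (U E).card = (m + 1) ^ 2 := by
          apply Nat.eq_of_mul_eq_mul_right hpos
          rw [h1]; ring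
        rw [h2] at hst
        push Not at hc1
        nlinarith
      have : (m + 1) * E.card < (m + 1 + 1) * (U E).card := by
        push Not at hc1
        nlinarith
      exact ⟨this.le, fun heq => absurd heq this.ne⟩
    · push Not at hc2
      obtain ⟨E', hE', h1, h2⟩ := deletion (by omega) h (v := v) (by omega)
      obtain ⟨i1, _⟩ := ih E' hE' (h.mono hE'.1)
      obtain ⟨m, rfl⟩ : ∃ m, r = m + 1 := ⟨r - 1, by omega⟩
      obtain ⟨k, hk⟩ : ∃ k, deg E v = k + 1 := ⟨deg E v - 1, by omega⟩
      rw [hk, Nat.add_sub_cancel] at h1 h2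
      rw [Nat.add_sub_cancel] at h1 h2
      have : (m + 1) * E.card < (m + 1 + 1) * (U E).card := by
        have h3 : 2 * (m + 1) ≤ k := by omega
        have hm : 1 ≤ m := by omega
        nlinarith [Nat.mul_le_mul h3 hm, Nat.mul_le_mul h3 (Nat.mul_le_mul hm hm)]
      exact ⟨this.le, fun heq => absurd heq this.ne⟩

end Pool.Agent.MP_d43ba4_co
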