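import Pool.Agent.MP_d43ba4_co.Cograph

namespace Pool.Agent.MP_d43ba4_co

variable {V : Type*} [DecidableEq V]

/-- the set of non-isolated vertices -/
def U (E : Finset (Finset V)) : Finset V := E.biUnion id

/-- degree -/
def deg (E : Finset (Finset V)) (x : V) : ℕ := (E.filter (fun e => x ∈ e)).card

/-- the hypotheses in elementary form -/
structure Hyp (r : ℕ) (E : Finset (Finset V)) : Prop where
  unif : ∀ e ∈ E, e.card = r
  lin : ∀ e ∈ E, ∀ f ∈ E, e ≠ f → (e ∩ f).card ≤ 1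
  free : NoP4 (fun e f : Finset V => ¬ Disjoint e f) E

lemma Hyp.mono {r : ℕ} {E F : Finset (Finset V)} (h : Hyp r E) (hF : F ⊆ E) : Hyp r F :=
  ⟨fun e he => h.unif e (hF he), fun e he f hf => h.lin e (hF he) f (hF hf),
    fun a ha b hb c hc d hd => h.free a (hF ha) b (hF hb) c (hF hc) d (hF hd)⟩

lemma mem_U {E : Finset (Finset V)} {x : V} : x ∈ U E ↔ ∃ e ∈ E, x ∈ e := by simp [U]

lemma subset_U {E : Finset (Finset V)} {e : Finset V} (he : e ∈ E) : e ⊆ U E :=
  fun _ hx => mem_U.2 ⟨e, he, hx⟩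

lemma deg_pos {E : Finset (Finset V)} {x : V} (hx : x ∈ U E) : 0 < deg E x := by
  obtain ⟨e, he, hxe⟩ := mem_U.1 hx
  exact Finset.card_pos.2 ⟨e, by simp [he, hxe]⟩

lemma Hyp.eq_of_mem {r : ℕ} {E : Finset (Finset V)} (h : Hyp r E) {e f : Finset V} (he : e ∈ E)
    (hf : f ∈ E) {x y : V} (hxy : x ≠ y) (hxe : x ∈ e) (hye : y ∈ e) (hxf : x ∈ f) (hyf : y ∈ f) :
    e = f := by
  by_contra hne
  have h1 := h.lin e he f hf hne
  have h2 : 1 < (e ∩ f).card := Finset.one_lt_card.2 ⟨x, by simp [hxe, hxf], y, by simp [hye, hyf], hxy⟩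
  omega

/-- double counting -/
lemma sum_deg (A : Finset (Finset V)) (X : Finset V) (hX : ∀ e ∈ A, e ⊆ X) :
    ∑ x ∈ X, deg A x = ∑ e ∈ A, e.card := by
  have h1 : ∀ x, deg A x = ∑ e ∈ A, if x ∈ e then 1 else 0 := by
    intro x; rw [deg, Finset.card_filter]
  simp_rw [h1]
  rw [Finset.sum_comm]
  apply Finset.sum_congr rfl
  intro e he
  rw [← Finset.card_filter]
  congr 1
  ext x
  simp only [Finset.mem_filter]
  exact ⟨fun h => h.2, fun h => ⟨hX e he h, h⟩⟩

lemma sum_deg_mul (A B : Finset (Finset V)) (X : Finset V) (hX : ∀ e ∈ A, e ⊆ X) :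
    ∑ x ∈ X, deg A x * deg B x = ∑ e ∈ A, ∑ f ∈ B, (e ∩ f).card := by
  have h1 : ∀ (A : Finset (Finset V)) (x : V), deg A x = ∑ e ∈ A, if x ∈ e then 1 else 0 := by
    intro A x; rw [deg, Finset.card_filter]
  simp_rw [h1 A, h1 B, Finset.sum_mul_sum]
  rw [Finset.sum_comm]
  apply Finset.sum_congr rfl
  intro e he
  rw [Finset.sum_comm]
  apply Finset.sum_congr rfl
  intro f _
  rw [Finset.card_eq_sum_ones, ← Finset.sum_filter_add_sum_filter_not X (fun x => x ∈ e ∩ f)]
  rw [Finset.sum_eq_zero (s := X.filter (fun x => ¬ x ∈ e ∩ f)), add_zero]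
  · have h2 : X.filter (fun x => x ∈ e ∩ f) = e ∩ f := by
      ext x
      simp only [Finset.mem_filter]
      exact ⟨fun h => h.2, fun h => ⟨hX e he (Finset.mem_inter.1 h).1, h⟩⟩
    rw [h2]
    apply Finset.sum_congr rfl
    intro x hx
    rw [Finset.mem_inter] at hx
    rw [if_pos hx.1, if_pos hx.2, mul_one]
  · intro x hx
    simp only [Finset.mem_filter, Finset.mem_inter, not_and] at hx
    by_cases hxe : x ∈ e
    · rw [if_neg (hx.2 hxe), mul_zero]
    · rw [if_neg hxe, zero_mul]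

lemma deg_union {A B : Finset (Finset V)} (h : Disjoint A B) (x : V) :
    deg (A ∪ B) x = deg A x + deg B x := by
  unfold deg
  rw [Finset.filter_union, Finset.card_union_of_disjoint]
  exact Finset.disjoint_filter_filter h

/-- size of a partial star minus its centre -/
lemma card_star {r : ℕ} {E : Finset (Finset V)} (h : Hyp r E) {v : V} {F : Finset (Finset V)}
    (hF : F ⊆ E) (hv : ∀ e ∈ F, v ∈ e) :
    (F.biUnion (fun e => e.erase v)).card = F.card * (r - 1) := by
  rw [Finset.card_biUnion]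
  · rw [Finset.sum_const_nat]
    intro e he
    rw [Finset.card_erase_of_mem (hv e he), h.unif e (hF he)]
  · intro e he f hf hef
    change Disjoint (e.erase v) (f.erase v)
    rw [Finset.disjoint_left]
    intro x hx1 hx2
    rw [Finset.mem_erase] at hx1 hx2
    exact hef (h.eq_of_mem (hF he) (hF hf) hx1.1 hx1.2 (hv e he) hx2.2 (hv f hf))

lemma star_le {r : ℕ} {E : Finset (Finset V)} (h : Hyp r E) {v : V} (hv : v ∈ U E) :
    1 + deg E v * (r - 1) ≤ (U E).card := by
  have h1 := card_star h (v := v) (Finset.filter_subset (fun e => v ∈ e) E)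
    (fun e he => (Finset.mem_filter.1 he).2)
  rw [deg, ← h1, add_comm, ← Finset.card_insert_of_notMem (a := v)]
  · apply Finset.card_le_card
    intro x hx
    rcases Finset.mem_insert.1 hx with rfl | hx
    · exact hv
    · obtain ⟨e, he, hxe⟩ := Finset.mem_biUnion.1 hx
      exact subset_U (Finset.mem_filter.1 he).1 (Finset.mem_of_mem_erase hxe)
  · intro hx
    obtain ⟨e, _, hxe⟩ := Finset.mem_biUnion.1 hx
    exact (Finset.notMem_erase v e) hxe

/-- the key inequality for a join -/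
lemma join_ineq {r : ℕ} {A B : Finset (Finset V)} (hdisj : Disjoint A B) (h : Hyp r (A ∪ B))
    (hA : A.Nonempty) (hB : B.Nonempty) (hcross : ∀ a ∈ A, ∀ b ∈ B, ¬ Disjoint a b) {D : ℕ}
    (hD : ∀ x, deg (A ∪ B) x ≤ D) :
    (A ∪ B).card ≤ r * D ∧ ((A ∪ B).card = r * D → ∀ x ∈ U (A ∪ B), deg (A ∪ B) x = D) := by
  set X := U (A ∪ B) with hX
  have hXA : ∀ e ∈ A, e ⊆ X := fun e he => subset_U (Finset.mem_union_left _ he)
  have hXB : ∀ e ∈ B, e ⊆ X := fun e he => subset_U (Finset.mem_union_right _ he)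
  have s1 : ∑ x ∈ X, deg A x = r * A.card := by
    rw [sum_deg A X hXA, Finset.sum_const_nat (m := r) fun e he => h.unif e (Finset.mem_union_left _ he),
      mul_comm]
  have s2 : ∑ x ∈ X, deg B x = r * B.card := by
    rw [sum_deg B X hXB, Finset.sum_const_nat (m := r) fun e he => h.unif e (Finset.mem_union_right _ he),
      mul_comm]
  have s3 : ∑ x ∈ X, deg A x * deg B x = A.card * B.card := by
    rw [sum_deg_mul A B X hXA]
    rw [Finset.sum_const_nat (m := B.card)]
    intro e he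
    rw [Finset.sum_const_nat (m := 1), mul_one]
    intro f hf
    apply le_antisymm
    · apply h.lin e (Finset.mem_union_left _ he) f (Finset.mem_union_right _ hf)
      rintro rfl
      exact Finset.disjoint_left.1 hdisj he hf
    · apply Finset.card_pos.2
      rw [← Finset.not_disjoint_iff_nonempty_inter]
      exact hcross e he f hf
  have ha : 0 < A.card := Finset.card_pos.2 hA
  have hb : 0 < B.card := Finset.card_pos.2 hB
  obtain ⟨a, ha'⟩ : ∃ a : ℤ, a = (A.card : ℤ) := ⟨_, rfl⟩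
  obtain ⟨b, hb'⟩ : ∃ b : ℤ, b = (B.card : ℤ) := ⟨_, rfl⟩
  have t1 : ∑ x ∈ X, (deg A x : ℤ) = r * a := by rw [ha']; exact_mod_cast s1
  have t2 : ∑ x ∈ X, (deg B x : ℤ) = r * b := by rw [hb']; exact_mod_cast s2
  have t3 : ∑ x ∈ X, (deg A x : ℤ) * deg B x = a * b := by rw [ha', hb']; exact_mod_cast s3
  have hDx : ∀ x, (deg A x : ℤ) + deg B x ≤ D := by
    intro x
    have := hD x
    rw [deg_union hdisj] at this
    exact_mod_cast this
  -- nonnegative sums
  have n1 : 0 ≤ ∑ x ∈ X, (deg A x : ℤ) * (D - deg A x - deg B x) :=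
    Finset.sum_nonneg fun x _ => mul_nonneg (by positivity) (by linarith [hDx x])
  have n2 : 0 ≤ ∑ x ∈ X, (deg B x : ℤ) * (D - deg A x - deg B x) :=
    Finset.sum_nonneg fun x _ => mul_nonneg (by positivity) (by linarith [hDx x])
  have n3 : 0 ≤ ∑ x ∈ X, (b * deg A x - a * deg B x) ^ 2 :=
    Finset.sum_nonneg fun x _ => sq_nonneg _
  have e1 : ∑ x ∈ X, (deg A x : ℤ) * (D - deg A x - deg B x) =
      D * (r * a) - ∑ x ∈ X, (deg A x : ℤ) ^ 2 - a * b := by
    rw [← t1, ← t3, Finset.mul_sum, ← Finset.sum_sub_distrib, ← Finset.sum_sub_distrib]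
    exact Finset.sum_congr rfl fun x _ => by ring
  have e2 : ∑ x ∈ X, (deg B x : ℤ) * (D - deg A x - deg B x) =
      D * (r * b) - ∑ x ∈ X, (deg B x : ℤ) ^ 2 - a * b := by
    rw [← t2, ← t3, Finset.mul_sum, ← Finset.sum_sub_distrib, ← Finset.sum_sub_distrib]
    exact Finset.sum_congr rfl fun x _ => by ring
  have e3 : ∑ x ∈ X, (b * (deg A x : ℤ) - a * deg B x) ^ 2 =
      b ^ 2 * ∑ x ∈ X, (deg A x : ℤ) ^ 2 + a ^ 2 * ∑ x ∈ X, (deg B x : ℤ) ^ 2 -
        2 * a * b * (a * b) := by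
    rw [← t3, Finset.mul_sum, Finset.mul_sum, Finset.mul_sum, ← Finset.sum_add_distrib,
      ← Finset.sum_sub_distrib]
    exact Finset.sum_congr rfl fun x _ => by ring
  set P := ∑ x ∈ X, (deg A x : ℤ) ^ 2
  set Q := ∑ x ∈ X, (deg B x : ℤ) ^ 2
  set N1 := ∑ x ∈ X, (deg A x : ℤ) * (D - deg A x - deg B x) with hN1
  set N2 := ∑ x ∈ X, (deg B x : ℤ) * (D - deg A x - deg B x) with hN2
  set N3 := ∑ x ∈ X, (b * (deg A x : ℤ) - a * deg B x) ^ 2 with hN3
  have ha0 : 0 < a := by rw [ha']; exact_mod_cast ha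
  have hb0 : 0 < b := by rw [hb']; exact_mod_cast hb
  have hcard : (((A ∪ B).card : ℕ) : ℤ) = a + b := by
    rw [Finset.card_union_of_disjoint hdisj, ha', hb']; push_cast; rfl
  -- the fundamental identity
  have key : N3 + b ^ 2 * N1 + a ^ 2 * N2 = a * b * (a + b) * (r * D - (a + b)) := by
    rw [e1, e2, e3]; ring
  have hle : a + b ≤ r * D := by
    by_contra hlt
    push Not at hlt
    have h1 : a * b * (a + b) * (r * D - (a + b)) < 0 :=
      mul_neg_of_pos_of_neg (by positivity) (by linarith)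
    have h2 : 0 ≤ N3 + b ^ 2 * N1 + a ^ 2 * N2 := by positivity
    linarith
  refine ⟨by exact_mod_cast (hcard ▸ hle : (((A ∪ B).card : ℕ) : ℤ) ≤ r * D), ?_⟩
  intro heq x hx
  have heq' : a + b = r * D := by rw [← hcard, heq]; push_cast; rfl
  have h0 : N3 + b ^ 2 * N1 + a ^ 2 * N2 = 0 := by rw [key, heq']; ring
  have h1 : 0 ≤ b ^ 2 * N1 := by positivity
  have h2 : 0 ≤ a ^ 2 * N2 := by positivity
  have h3 : b ^ 2 * N1 = 0 := by linarith
  have h4 : a ^ 2 * N2 = 0 := by linarith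
  have h5 : N1 = 0 := by
    rcases mul_eq_zero.1 h3 with h | h
    · exact absurd h (by positivity)
    · exact h
  have h6 : N2 = 0 := by
    rcases mul_eq_zero.1 h4 with h | h
    · exact absurd h (by positivity)
    · exact h
  rw [hN1, Finset.sum_eq_zero_iff_of_nonneg fun x _ => mul_nonneg (by positivity)
    (by linarith [hDx x])] at h5
  rw [hN2, Finset.sum_eq_zero_iff_of_nonneg fun x _ => mul_nonneg (by positivity)
    (by linarith [hDx x])] at h6
  have h7 := h5 x hx
  have h8 := h6 x hx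
  have hpos := deg_pos hx
  rw [deg_union hdisj] at hpos ⊢
  have h9 : ((deg A x : ℤ) + deg B x) * (D - deg A x - deg B x) = 0 := by linarith
  rcases mul_eq_zero.1 h9 with h | h
  · exfalso
    have : deg A x + deg B x = 0 := by exact_mod_cast h
    omega
  · have : (D : ℤ) = deg A x + deg B x := by linarith
    exact_mod_cast this.symm

end Pool.Agent.MP_d43ba4_co
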